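import Pool.Agent.T2H83.GR.Fin4
import Pool.Agent.T2H83.GR.SER
import Pool.Agent.T2H83.GR.QCO
import Pool.Agent.T2H83.GR.HOM
import Pool.Agent.T2H83.GR.REO
import Pool.Agent.T2H83.GR.PSJ
import Pool.Agent.T2H83.GR.PSK
import Pool.Agent.T2H83.GR.RTN
import Pool.Agent.T2H83.GR.XLC
import Pool.Agent.T2H83.GR.CRT
import Pool.Agent.T2H44.RS.FS

/-!
# MP_19e880_co: the first Gal inequalities after a few rounds of edge subdivisions, in all dimensions

Complexes are finite families of finite sets of natural numbers. `IsPure d Δ`: `Δ` is a simplicial complex, pure of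
dimension `d - 1` (rank `d`). `IsEul d Δ`: the link of every face (including the empty one) has the Euler characteristic
of a sphere of the right dimension. `IsFlag Δ`: `Δ` is flag. `nf i Δ` is the number of the faces with `i` vertices.
`IsGamma d Δ γ`: `γ` is the `γ`-vector of `Δ`, defined by the expansion in the frozen statement of the problem.
`Round Δ Δ'`: `Δ'` arises from `Δ` by one **round**: all the edges of `Δ` are subdivided, once each, one after the other,
in an arbitrary order. `Rounds N Δ Δ'`: `N` rounds.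

**Theorem.** Let `Δ` be a flag Eulerian complex of rank `d`, for instance any flag homology `(d-1)`-sphere. There is no
restriction on the dimension.

1. If `Δ'` arises from `Δ` by one round, then for all `j` with `2 j² + j ≤ d + 1`
   `(d + 1 - 2 j) γ_j(Δ') ≥ (d + 1 - 2 j² - j) f_(2j-1)(Δ)`, where `f_(2j-1)(Δ) = nf (2 j) Δ` is the number of the faces with `2 j` vertices.
2. After any number `N ≥ 1` of rounds `γ_j > 0` for all `j` with `2 j² + j ≤ d`.
3. Let `M ≥ 1`, `r = 2^M` and `m^r > 2 d`. After any number `N ≥ M` of rounds `γ_j > 0` for all `j` with `(m + 2) r j ≤ 2 d + 2`. For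
   `m = 2`: if `2^(2^M) > 2 d`, that is, if `M > log₂ log₂ (2 d)`, then `γ_j > 0` for all `j ≤ (d + 1) / 2^(M+1)`. So one round gives
   the first `√(d/2) - O(1)` of the `d/2` inequalities of Gal, and `log₂ log₂ (2 d) + 1` rounds give the first
   `d / (4 log₂ (2 d))`, in every dimension.

**Proof.** Let `S` be the generating function of the Catalan numbers, `K = S(X²)`, `q = 1 + X K` and
`c = √(1 - 4 X²) = 1 - 2 X² K`. With `A = X q` one has `c + 2 A = 1 + 2 X` and `A (A + c) = X (1 + 2 X)`. Hence, for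
`∑ f_(n-1) x^n = ∑ γ_i (x + x²)^i (1 + 2 x)^(d - 2 i)`, `∑ f_(n-1) A^n c^(d-n) = ∑ γ_i X^i (1 + 2 X)^(d - i)`, and the coefficient of
`X^(2j)` of the right-hand side is `γ_j(Δ')` (see `RoundsOfSubdivisions`). The coefficients of the powers of
`c` are explicit, and the coefficient of `X^(2j)` of the left-hand side is a sum of alternating sums, the terms of
which decrease in absolute value if the face numbers grow fast enough. For flag Eulerian complexes
`n f_(n-1) ≥ 2 (d - n + 1) f_(n-2)`, that is, the ratios `f_(n-1) / f_(n-2)` are at least those of the cross polytope, and after `M - 1`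
rounds the ratios are at least those of the face numbers of the cross polytope taken at the multiples of `2^(M-1)`.
-/

set_option autoImplicit false

namespace Pool.Agent.Results.MP_19e880_co.FirstInequalities

open Pool.Agent.T2H44.RS Pool.Agent.T2H83.GR

/-- The first Gal inequalities after rounds of edge subdivisions, in all dimensions. -/
theorem result :
    -- 1. one round: a lower bound for `γ_j`
    (∀ (d j : ℕ) (Δ Δ' : Finset (Finset ℕ)), IsPure d Δ → IsEul d Δ → IsFlag Δ → Round Δ Δ' →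
      2 * j ^ 2 + j ≤ d + 1 → ∀ γ : ℕ → ℤ, IsGamma d Δ' γ →
      ((d : ℤ) + 1 - 2 * j ^ 2 - j) * (nf (2 * j) Δ : ℤ) ≤ ((d : ℤ) + 1 - 2 * j) * γ j) ∧
    -- 2. one or more rounds: positivity
    (∀ (d j N : ℕ) (Δ Δ' : Finset (Finset ℕ)), IsPure d Δ → IsEul d Δ → IsFlag Δ → 1 ≤ N →
      Rounds N Δ Δ' → 2 * j ^ 2 + j ≤ d → ∀ γ : ℕ → ℤ, IsGamma d Δ' γ → 0 < γ j) ∧
    -- 3. `M` or more rounds: positivity
    (∀ (d j N M m : ℕ) (Δ Δ' : Finset (Finset ℕ)), IsPure d Δ → IsEul d Δ → IsFlag Δ → 1 ≤ M →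
      M ≤ N → Rounds N Δ Δ' → 2 * d < m ^ 2 ^ M → (m + 2) * (2 ^ M * j) ≤ 2 * d + 2 →
      ∀ γ : ℕ → ℤ, IsGamma d Δ' γ → 0 < γ j) ∧
    -- 4. rounds exist, and give pure flag Eulerian complexes, which have `γ`-vectors
    (∀ (d N : ℕ) (Δ : Finset (Finset ℕ)), IsPure d Δ → IsEul d Δ → IsFlag Δ →
      (∃ Δ', Rounds N Δ Δ') ∧ ∀ Δ', Rounds N Δ Δ' →
        IsPure d Δ' ∧ IsEul d Δ' ∧ IsFlag Δ' ∧ ∃ γ, IsGamma d Δ' γ) ∧
    -- 5. flag homology spheres
    (∀ (k : Type) [Field k] (m d : ℕ) (S : Finset (Finset (Fin m))),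
      Pool.Agent.W497.FS.IsFlagSphere k d S →
      IsPure d (toNat S) ∧ IsEul d (toNat S) ∧ IsFlag (toNat S)) := by
  refine ⟨?_, ?_, ?_, ?_, fun k _ m d S hS => sphere_toNat k hS⟩
  · intro d j Δ Δ' h hE hF hR hj γ hγ
    exact first_int (pHOM pSER) (pREO pSER) (pPSJ pQCO) h hE hF hR hγ hj
  · intro d j N Δ Δ' h hE hF hN hR hj γ hγ
    exact first_pos (pHOM pSER) (pREO pSER) (pPSJ pQCO) h hE hF hN hR hγ hj
  · intro d j N M m Δ Δ' h hE hF hM hN hR hm hj γ hγ
    exact all_pos (pHOM pSER) (pREO pSER) (pPSK pQCO) (pRTN pXLC) pXLC pCRT h hE hF hM hN hR hγ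
      hm hj
  · intro d N Δ h hE hF
    refine ⟨pPRS.2.2 Δ N, fun Δ' hR => ?_⟩
    obtain ⟨h1, h2, h3⟩ := pPRS.2.1 d Δ Δ' N h hR
    exact ⟨h1, h2 hE, h3 hF, exists_gamma h1 (h2 hE)⟩

end Pool.Agent.Results.MP_19e880_co.FirstInequalities
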