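import Pool.Agent.T2H83.GR.Fin5
import Pool.Agent.T2H83.GR.SR0
import Pool.Agent.T2H83.GR.HM0
import Pool.Agent.T2H83.GR.RO0
import Pool.Agent.T2H83.GR.PS0
import Pool.Agent.T2H44.RS.FS

/-!
# MP_19e880_co: Gal's conjecture for flag homology spheres with large links

Complexes are finite families of finite sets of natural numbers. `IsPure d Δ`: `Δ` is a simplicial complex, pure of
dimension `d - 1` (rank `d`). `IsEul d Δ`: the link of every face (including the empty one) has the Euler characteristic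
of a sphere of the right dimension. `nf i Δ` is the number of the faces with `i` vertices, `lk Δ σ` the link of `σ`, so `nf 1 (lk Δ σ)` is
the number of the vertices of the link. `IsGamma d Δ γ`: `γ` is the `γ`-vector of `Δ`, defined by the expansion in the
frozen statement of the problem. `IsFlagSphere k d S` is the hypothesis of the frozen statement (flag homology
`(d-1)`-spheres over a field).

**Theorem.** Let `Δ` be a flag homology `(d-1)`-sphere, or any pure Eulerian complex of rank `d` (flag or not), and let `J ≤ d / 2`.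

1. Suppose that for all `n < J` the link of every face with `n` vertices has at least `2 (n + 1) (d - n)` vertices. Then for
   `1 ≤ j ≤ J`
   `γ_j ≥ f_(j-1) - 2 (d - j + 1) f_(j-2) ≥ 0`.
   In particular (`J = ⌊d/2⌋`) Gal's conjecture holds for the flag homology spheres of any dimension in which the links of
   all the faces with `n < ⌊d/2⌋` vertices have at least `2 (n + 1) (d - n)` vertices.
2. It is sufficient that the links are large on average: `f_n ≥ 2 (d - n) f_(n-1)` for `n < j`.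

For comparison: in every flag homology sphere the link of a face with `n` vertices has at least `2 (d - n)` vertices. The joins
of `d / 2` long cycles have the property.

**Proof.** Let `S` be the generating function of the Catalan numbers and `c = √(1 - 4 X) = 1 - 2 X S`. Then `A = X S` satisfies
`c + 2 A = 1` and `A (A + c) = X`. Hence, for `∑ f_(n-1) x^n = ∑ γ_i (x + x²)^i (1 + 2 x)^(d - 2 i)`,
`∑ f_(n-1) A^n c^(d-n) = ∑ γ_i X^i`. The coefficients of the powers of `c` are explicit, and the coefficient of `X^j` of the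
left-hand side is a sum of alternating sums, the terms of which decrease in absolute value by the hypothesis.
-/

set_option autoImplicit false

namespace Pool.Agent.Results.MP_19e880_co.LargeLinks

open Pool.Agent.T2H44.RS Pool.Agent.T2H83.GR

/-- Gal's inequalities for complexes with large links. -/
theorem result :
    -- 1. links with many vertices
    (∀ (d J : ℕ) (Δ : Finset (Finset ℕ)) (γ : ℕ → ℤ), IsPure d Δ → IsEul d Δ → IsGamma d Δ γ →
      2 * J ≤ d → (∀ σ ∈ Δ, σ.card < J →
        2 * (σ.card + 1) * (d - σ.card) ≤ nf 1 (lk Δ σ)) →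
      ∀ j, 1 ≤ j → j ≤ J →
        0 ≤ (nf j Δ : ℤ) - 2 * ((d : ℤ) - j + 1) * (nf (j - 1) Δ : ℤ) ∧
        (nf j Δ : ℤ) - 2 * ((d : ℤ) - j + 1) * (nf (j - 1) Δ : ℤ) ≤ γ j) ∧
    -- 2. links with many vertices on average
    (∀ (d j : ℕ) (Δ : Finset (Finset ℕ)) (γ : ℕ → ℤ), IsPure d Δ → IsEul d Δ → IsGamma d Δ γ →
      1 ≤ j → 2 * j ≤ d → (∀ n < j, 2 * (d - n) * nf n Δ ≤ nf (n + 1) Δ) →
        0 ≤ (nf j Δ : ℤ) - 2 * ((d : ℤ) - j + 1) * (nf (j - 1) Δ : ℤ) ∧
        (nf j Δ : ℤ) - 2 * ((d : ℤ) - j + 1) * (nf (j - 1) Δ : ℤ) ≤ γ j) ∧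
    -- 3. flag homology spheres, all of Gal's inequalities
    (∀ (k : Type) [Field k] (m d : ℕ) (S : Finset (Finset (Fin m))),
      Pool.Agent.W497.FS.IsFlagSphere k d S →
      IsPure d (toNat S) ∧ IsEul d (toNat S) ∧ IsFlag (toNat S) ∧
      (∃ γ, IsGamma d (toNat S) γ) ∧
      ((∀ σ ∈ toNat S, σ.card < d / 2 →
          2 * (σ.card + 1) * (d - σ.card) ≤ nf 1 (lk (toNat S) σ)) →
        ∀ γ, IsGamma d (toNat S) γ → ∀ i ≤ d / 2, 0 ≤ γ i)) := by
  have key : ∀ (d j : ℕ) (Δ : Finset (Finset ℕ)) (γ : ℕ → ℤ), IsGamma d Δ γ →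
      1 ≤ j → 2 * j ≤ d → (∀ n < j, 2 * (d - n) * nf n Δ ≤ nf (n + 1) Δ) →
        0 ≤ (nf j Δ : ℤ) - 2 * ((d : ℤ) - j + 1) * (nf (j - 1) Δ : ℤ) ∧
        (nf j Δ : ℤ) - 2 * ((d : ℤ) - j + 1) * (nf (j - 1) Δ : ℤ) ≤ γ j := by
    intro d j Δ γ hγ hj1 hj hb
    refine ⟨?_, gamma_of_nf (pHM0 pSR0) (pRO0 pSR0) (pPS0 pSR0) hγ hj1 hj hb⟩
    have h1 := hb (j - 1) (by omega)
    rw [show j - 1 + 1 = j by omega, show d - (j - 1) = d - j + 1 by omega] at h1
    have h2 : ((2 * (d - j + 1) * nf (j - 1) Δ : ℕ) : ℤ) ≤ ((nf j Δ : ℕ) : ℤ) := by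
      exact_mod_cast h1
    rw [Nat.cast_mul, Nat.cast_mul, Nat.cast_add, Nat.cast_sub (by omega : j ≤ d)] at h2
    push_cast at h2
    linarith
  refine ⟨?_, ?_, ?_⟩
  · intro d J Δ γ h _ hγ hJ hl j hj1 hjJ
    refine key d j Δ γ hγ hj1 (by omega) fun n hn => nf_of_links h fun σ hσ hc => ?_
    have h1 := hl σ hσ (by omega)
    rwa [hc] at h1
  · intro d j Δ γ _ _ hγ hj1 hj hb
    exact key d j Δ γ hγ hj1 hj hb
  · intro k _ m d S hS
    obtain ⟨hP, hE, hF⟩ := sphere_toNat k hS
    refine ⟨hP, hE, hF, exists_gamma hP hE, fun hl γ hγ i hi => ?_⟩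
    rcases Nat.eq_zero_or_pos i with rfl | hi1
    · rw [gamma_zero' hP hγ]
      exact zero_le_one
    · obtain ⟨h1, h2⟩ := key d i (toNat S) γ hγ hi1 (by omega) fun n hn =>
        nf_of_links hP fun σ hσ hc => by
          have h3 := hl σ hσ (by omega)
          rwa [hc] at h3
      exact le_trans h1 h2

end Pool.Agent.Results.MP_19e880_co.LargeLinks
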