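import Pool.Agent.T2H44.RS.Fin
import Pool.Agent.T2H44.RS.EX
import Pool.Agent.T2H44.RS.FS

/-!
# MP_19e880_co: Gal's conjecture holds almost surely under random edge subdivisions

**The process.** Let `Δ₀` be a finite simplicial complex, pure of dimension `d - 1`, `d ≥ 2` (`IsPure d Δ₀`; the vertices
are natural numbers). `sub Δ e` is the subdivision of the edge `e` (the stellar subdivision of `Δ` at `e`, with
the new vertex `fresh Δ`). `Δ_n = run Δ₀ e n` is obtained from `Δ₀` by `n` successive subdivisions, at the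
edges `e 0, …, e (n - 1)`. `RandomEdges μ Δ₀ e`: the `e n` are random variables on a probability space with the
measure `μ`, `e n` is an edge of `Δ_n`, and given `e 0, …, e (n - 1)` it is uniformly distributed on the edges
of `Δ_n`. Such random variables exist (part 1).

**Face numbers** (part 2). Almost surely, for all `1 ≤ i ≤ d`,
`f_{i-1}(Δ_n) / n → phi d i = (d + i - 2)! / ((d - i)! i! (i - 1)!)`,
whatever the complex `Δ₀` is. (`∑_i phi d i x^i = x (1 + x) A(x)`, where `A(x)` is the polynomial of the numbers of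
dissections of a `(d + 1)`-gon, the face polynomial of the boundary of the simplicial associahedron.)

**Gal's conjecture** (part 3). Let in addition `Δ₀` be Eulerian (`IsEul d Δ₀`), for instance any flag homology
`(d-1)`-sphere over a field (part 4, `IsFlagSphere k d S` is word for word the hypothesis of the frozen statement of
the problem). Then all `Δ_n` have `γ`-vectors, and almost surely, for all `0 ≤ i ≤ d / 2`,
`γ_i(Δ_n) / n → gam d i`, where `gam d 0 = 0` and `gam d i = C(d - 2, 2 i - 2) · Catalan(i - 1) > 0` for `i ≥ 1`.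
So almost surely for all large `n` the `γ`-vector of `Δ_n` is positive, `γ_i(Δ_n) > 0` for all
`0 ≤ i ≤ d / 2`. Moreover, almost surely for all large `n` the `h`-polynomial
`∑_j f_{j-1} t^j (1 - t)^(d - j)` of `Δ_n` has `d` different negative real zeros; this is false for some
flag spheres of dimension `≥ 5` (Gal). If `Δ₀` is flag then all `Δ_n` are flag.

No restriction on the dimension or on `Δ₀` is made: even if Gal's conjecture were false for `Δ₀` and its links, it
becomes true by random subdivisions.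

**Proof.** `E (f_{i-1}(Δ_{n+1}) - f_{i-1}(Δ_n) | past) = (C(i, 2) f_{i-1} + C(i+1, 2) f_i) / f_1`. Let
`P_n = ∏_{j < n} (1 + C(d, 2) / f_1(Δ_j))`. Then `Z_n = f_{d-1}(Δ_n) / P_n` is a martingale. With the total weight `H` of
all pairs of facets with a common edge (weight `(4 d^2)^m` if they have `m ≥ 2` common vertices),
`(f_{d-1}^2 + 4 H) / P_n^2` is a supermartingale, as `H` grows more slowly than `f_{d-1}^2`. So
`E (Z_n^2 | past at m) ≤ C Z_m^2` with a constant `C = C(d)`, and by Lévy's zero-one law the limit of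
`Z_n` is positive almost surely. The other face numbers follow by a linear recursion with summable noise,
and `n = f_0(Δ_n) - f_0(Δ_0)`. The limit polynomial `∑ phi d i x^i` is a multiple of
the derivative of order `d - 2` of `(x + x^2)^(d-1)` (a Jacobi polynomial), and equal to
`∑ gam d i (x + x^2)^i (1 + 2x)^(d-2i)`.
-/

set_option autoImplicit false

namespace Pool.Agent.Results.MP_19e880_co.RandomEdgeSubdivisions

open Filter Topology MeasureTheory Pool.Agent.T2H44.RS

/-- Gal's conjecture for random edge subdivisions. -/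
theorem result :
    -- 1. the process exists
    (∀ (d : ℕ) (Δ₀ : Finset (Finset ℕ)), 2 ≤ d → IsPure d Δ₀ →
      ∃ (Ω : Type) (_ : MeasurableSpace Ω) (μ : Measure Ω) (e : ℕ → Ω → Finset ℕ),
        IsProbabilityMeasure μ ∧ RandomEdges μ Δ₀ e) ∧
    -- 2. the limits of the face numbers
    (∀ (d : ℕ) (Δ₀ : Finset (Finset ℕ)), 2 ≤ d → IsPure d Δ₀ →
      ∀ (Ω : Type) (_ : MeasurableSpace Ω) (μ : Measure Ω) (e : ℕ → Ω → Finset ℕ),
      IsProbabilityMeasure μ → RandomEdges μ Δ₀ e →
      ∀ᵐ ω ∂μ, ∀ i, 1 ≤ i → i ≤ d →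
        Tendsto (fun n : ℕ => (nf i (run Δ₀ (fun j => e j ω) n) : ℝ) / n) atTop (𝓝 (phi d i))) ∧
    -- 3. the limits of the `γ`-vectors, Gal's inequalities, and real zeros of the `h`-polynomials
    (∀ (d : ℕ) (Δ₀ : Finset (Finset ℕ)), 2 ≤ d → IsPure d Δ₀ → IsEul d Δ₀ →
      ∀ (Ω : Type) (_ : MeasurableSpace Ω) (μ : Measure Ω) (e : ℕ → Ω → Finset ℕ),
      IsProbabilityMeasure μ → RandomEdges μ Δ₀ e →
      ∀ᵐ ω ∂μ,
        (∀ n, ∃ γ, IsGamma d (run Δ₀ (fun j => e j ω) n) γ) ∧
        (∀ γ : ℕ → ℕ → ℤ, (∀ n, IsGamma d (run Δ₀ (fun j => e j ω) n) (γ n)) → ∀ i, i ≤ d / 2 →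
          Tendsto (fun n : ℕ => (γ n i : ℝ) / n) atTop (𝓝 (gam d i))) ∧
        (∀ᶠ n in atTop, ∀ γ, IsGamma d (run Δ₀ (fun j => e j ω) n) γ → ∀ i ≤ d / 2, 0 < γ i) ∧
        ∀ᶠ n in atTop, ∃ s : Finset ℝ, s.card = d ∧ ∀ t ∈ s, t < 0 ∧
          ∑ j ∈ Finset.range (d + 1), (nf j (run Δ₀ (fun j => e j ω) n) : ℝ) * t ^ j *
            (1 - t) ^ (d - j) = 0) ∧
    (∀ d i : ℕ, 1 ≤ i → i ≤ d / 2 → 0 < gam d i) ∧
    -- 4. flag homology spheres
    (∀ (k : Type) [Field k] (m d : ℕ) (S : Finset (Finset (Fin m))),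
      Pool.Agent.W497.FS.IsFlagSphere k d S →
      IsPure d (toNat S) ∧ IsEul d (toNat S) ∧ IsFlag (toNat S)) ∧
    (∀ (d : ℕ) (Δ₀ : Finset (Finset ℕ)), IsPure d Δ₀ → IsFlag Δ₀ →
      ∀ (Ω : Type) (_ : MeasurableSpace Ω) (μ : Measure Ω) (e : ℕ → Ω → Finset ℕ),
      RandomEdges μ Δ₀ e → ∀ n ω, IsFlag (run Δ₀ (fun j => e j ω) n)) := by
  refine ⟨fun d Δ₀ hd h => exists_random hd h, ?_, ?_, fun d i h1 h2 => gam_pos h1 h2,
    fun k _ m d S hS => sphere_toNat k hS, ?_⟩
  · intro d Δ₀ hd h Ω _ μ e hμ he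
    exact limit_nf hd h he
  · intro d Δ₀ hd h hE Ω _ μ e hμ he
    filter_upwards [limit_nf hd h he] with ω hω
    exact gamma_of_limits hd (fun n => cx Δ₀ e n ω) (fun n => pure_cx h he n ω)
      (fun n => eul_cx h hE he n ω) hω
  · intro d Δ₀ h hF Ω _ μ e he n ω
    exact flag_cx h hF he n ω

end Pool.Agent.Results.MP_19e880_co.RandomEdgeSubdivisions
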