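import Pool.Agent.T2H83.GR.Fin3
import Pool.Agent.T2H44.RS.FS

/-!
# MP_19e880_co: Gal's conjecture holds after one, two or three rounds of edge subdivisions

Complexes are finite families of finite sets of natural numbers. `IsPure d Δ`: `Δ` is a simplicial complex, pure of
dimension `d - 1` (rank `d`). `IsEul d Δ`: the link of every face (including the empty one) has the Euler characteristic
of a sphere of the right dimension. `IsFlag Δ`: `Δ` is flag. `IsGamma d Δ γ`: `γ` is the `γ`-vector of `Δ`, defined by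
the expansion in the frozen statement of the problem. `sub Δ e` is the subdivision of the edge `e` of `Δ` (the stellar
subdivision at `e`).

`Round Δ Δ'`: `Δ'` arises from `Δ` by one **round**: all the edges of `Δ` are subdivided, once each, one after the other,
in an arbitrary order. `Rounds N Δ Δ'`: `N` rounds. Rounds exist for every complex, and preserve the three
properties above (part 1).

**The face numbers** (part 2). For one round of an arbitrary pure complex and all real `x ≥ 0`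
`f(Δ')(x) = (f(Δ)(x + √(x + x²)) + f(Δ)(x - √(x + x²))) / 2`, where `f(Δ)(x) = ∑_(σ ∈ Δ) x^|σ|`. In particular the face numbers of
`Δ'` do not depend on the order of the subdivisions (the complex `Δ'` does).

**The `γ`-vectors** (part 3). One round changes the `γ`-vector by the linear map `Mat d`,
`γ_j(Δ') = ∑_i C(d - i, 2 j - i) 2^(2 j - i) γ_i(Δ)`.

**Gal's inequalities** (part 4). Let `Δ` be a flag Eulerian complex of rank `d` (for instance any flag homology
`(d-1)`-sphere, part 6), and let `Δ'` arise from `Δ` by `N` rounds. Then all `γ_i(Δ')` are positive (`0 ≤ i ≤ d / 2`) if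
`d ≤ 5` and `N ≥ 1`, or `d ≤ 13` and `N ≥ 2`, or `d ≤ 37` and `N ≥ 3`. If in addition the links of the faces with `d - 4` vertices
satisfy the inequality `f_1 - 5 f_0 + 16 ≥ 0` (`DavisOkun d Δ`; by the theorem of Davis and Okun they do if they are flag
homology `3`-spheres over the rational numbers), then this is true if `d ≤ 9` and `N ≥ 1`, or `d ≤ 19` and `N ≥ 2`.

**All dimensions** (part 5). For every `d ≥ 2` there is `N₀` such that for EVERY pure Eulerian complex of rank `d`, flag or not,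
all `γ_i` are positive after `N ≥ N₀` rounds.

**Proof.** Part 2: let `g_0 = 1`, `g_1 = X`, `g_(n+2) = X (2 g_(n+1) + g_n)`. For a set `V` of vertices the potential
`∑_(τ ∈ Δ) X^|τ \ V| g_|τ ∩ V|` is not changed by the subdivision of an edge inside `V`. For the set of all vertices of `Δ` this
gives `f(Δ') = ∑_(σ ∈ Δ) g_|σ|`. The roots of `r² = 2 x r + x` are `x ± s`, `s = √(x + x²)`. Part 3: with `w = 1 + 2 x` one has
`(x ± s) + (x ± s)² = ± s (w ± 2 s)` and `1 + 2 (x ± s) = w ± 2 s`. Part 4: in a flag Eulerian complex every face with `n` vertices is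
contained in at least `2 (d - n)` faces with `n + 1` vertices (two neighbours for each ridge of a facet, all
different by flagness), so `(n + 1) f_n ≥ 2 (d - n) f_(n-1)`; by linear programming duality, for the dimensions listed,
these inequalities imply that the vector `Mat^N γ` is positive, with the cross polytope as extremal
case (exact certificates, verified by `linarith`). Part 5: the normalised face numbers converge, uniformly in `Δ`, to those of the
limit for the cross polytope, whose `γ`-vector is positive.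
-/

set_option autoImplicit false

namespace Pool.Agent.Results.MP_19e880_co.RoundsOfSubdivisions

open Pool.Agent.T2H44.RS Pool.Agent.T2H83.GR

/-- Gal's inequalities after rounds of edge subdivisions. -/
theorem result :
    -- 1. rounds exist, and preserve purity, the Eulerian property and flagness
    (∀ (Δ : Finset (Finset ℕ)) (N : ℕ), ∃ Δ', Rounds N Δ Δ') ∧
    (∀ (d N : ℕ) (Δ Δ' : Finset (Finset ℕ)), IsPure d Δ → Rounds N Δ Δ' →
      IsPure d Δ' ∧ (IsEul d Δ → IsEul d Δ') ∧ (IsFlag Δ → IsFlag Δ')) ∧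
    -- 2. the face numbers after one round
    (∀ (d : ℕ) (Δ Δ' : Finset (Finset ℕ)), IsPure d Δ → Round Δ Δ' → ∀ x : ℝ, 0 ≤ x →
      ∑ σ ∈ Δ', x ^ σ.card =
        (∑ σ ∈ Δ, (x + √(x + x ^ 2)) ^ σ.card + ∑ σ ∈ Δ, (x - √(x + x ^ 2)) ^ σ.card) / 2) ∧
    -- 3. `γ`-vectors exist, and their change in `N` rounds
    (∀ (d : ℕ) (Δ : Finset (Finset ℕ)), IsPure d Δ → IsEul d Δ → ∃ γ, IsGamma d Δ γ) ∧
    (∀ (d N : ℕ) (Δ Δ' : Finset (Finset ℕ)) (γ γ' : ℕ → ℤ), IsPure d Δ → Rounds N Δ Δ' →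
      IsGamma d Δ γ → IsGamma d Δ' γ' → ∀ j ≤ d / 2,
        (γ' j : ℝ) = (Mat d)^[N] (fun i => (γ i : ℝ)) j) ∧
    -- 4. flag Eulerian complexes
    (∀ (d N : ℕ) (Δ Δ' : Finset (Finset ℕ)), IsPure d Δ → IsEul d Δ → IsFlag Δ → Rounds N Δ Δ' →
      (d ≤ 5 ∧ 1 ≤ N) ∨ (d ≤ 13 ∧ 2 ≤ N) ∨ (d ≤ 37 ∧ 3 ≤ N) →
      ∀ γ : ℕ → ℤ, IsGamma d Δ' γ → ∀ i ≤ d / 2, 0 < γ i) ∧
    (∀ (d N : ℕ) (Δ Δ' : Finset (Finset ℕ)), IsPure d Δ → IsEul d Δ → IsFlag Δ → DavisOkun d Δ →
      Rounds N Δ Δ' → (d ≤ 9 ∧ 1 ≤ N) ∨ (d ≤ 19 ∧ 2 ≤ N) →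
      ∀ γ : ℕ → ℤ, IsGamma d Δ' γ → ∀ i ≤ d / 2, 0 < γ i) ∧
    -- 5. all pure Eulerian complexes of a given rank
    (∀ d : ℕ, 2 ≤ d → ∃ N₀ : ℕ, ∀ (Δ Δ' : Finset (Finset ℕ)) (N : ℕ), N₀ ≤ N → IsPure d Δ →
      IsEul d Δ → Rounds N Δ Δ' → ∀ γ : ℕ → ℤ, IsGamma d Δ' γ → ∀ i ≤ d / 2, 0 < γ i) ∧
    -- 6. flag homology spheres
    (∀ (k : Type) [Field k] (m d : ℕ) (S : Finset (Finset (Fin m))),
      Pool.Agent.W497.FS.IsFlagSphere k d S →
      IsPure d (toNat S) ∧ IsEul d (toNat S) ∧ IsFlag (toNat S)) := by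
  refine ⟨pPRS.2.2, fun d N Δ Δ' h hR => pPRS.2.1 d Δ Δ' N h hR, ?_, ?_, ?_, ?_, ?_, ?_,
    fun k _ m d S hS => sphere_toNat k hS⟩
  · intro d Δ Δ' h hR x hx
    exact face_law h hR x hx
  · intro d Δ h hE
    exact exists_gamma h hE
  · intro d N Δ Δ' γ γ' h hR hγ hγ' j hj
    exact gamma_law h hR hγ hγ' j hj
  · intro d N Δ Δ' h hE hF hR hN γ hγ
    exact pos_three h hE hF hR hγ hN
  · intro d N Δ Δ' h hE hF hD hR hN γ hγ
    exact pos_davis h hE hF hD hR hγ hN
  · intro d hd
    obtain ⟨N₀, hN₀⟩ := hFIN d hd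
    exact ⟨N₀, fun Δ Δ' N hN h hE hR γ hγ => hN₀ Δ Δ' N hN h hE hR γ hγ⟩

end Pool.Agent.Results.MP_19e880_co.RoundsOfSubdivisions
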